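import Mathlib

namespace Pool.Agent.Results.MP_ea4c65_al.Counterexample

/-- The (undirected, right) Cayley graph of `(G, S)`. -/
def cayley {G : Type} [Group G] (S : Finset G) : SimpleGraph G :=
  SimpleGraph.fromRel fun g h => g⁻¹ * h ∈ S

/-- Word length. -/
noncomputable def len {G : Type} [Group G] (S : Finset G) (x : G) : ℕ := (cayley S).dist 1 x

/-- There is a strictly increasing path to infinity from `x`. -/
def Escapes {G : Type} [Group G] (S : Finset G) (x : G) : Prop :=
  ∃ π : ℕ → G, π 0 = x ∧ ∀ i, (cayley S).Adj (π i) (π (i + 1)) ∧ len S (π i) < len S (π (i + 1))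

/-- `y` lies on some geodesic from the identity to `x`. -/
def OnGeodesic {G : Type} [Group G] (S : Finset G) (y x : G) : Prop :=
  ∃ p : (cayley S).Walk 1 x, p.length = len S x ∧ y ∈ p.support

/-- The depth of the shadow of `x`. -/
noncomputable def sd {G : Type} [Group G] (S : Finset G) (x : G) : ℕ :=
  sInf {k | ∃ y, len S y + k = len S x ∧ Escapes S y ∧ OnGeodesic S y x}

abbrev G := Multiplicative (ℤ × ZMod 4)

def e (n : ℤ) (f : ZMod 4) : G := Multiplicative.ofAdd (n, f)

def S : Finset G := {e 1 0, e 1 1, e 0 1}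

def L : List G := [e 1 0, e 1 1, e 0 1, e (-1) 0, e (-1) 3, e 0 3]

theorem adj_iff (g h : G) : (cayley S).Adj g h ↔ g⁻¹ * h ∈ L := by
  have key : ∀ a : G, a ∈ L ↔ a ≠ 1 ∧ (a ∈ S ∨ a⁻¹ ∈ S) := by
    intro a
    constructor
    · revert a; decide
    · rintro ⟨-, h | h⟩
      · revert a; decide
      · rw [← inv_inv a]
        generalize a⁻¹ = b at h
        revert b; decide
  rw [cayley, SimpleGraph.fromRel_adj, key, mul_inv_rev, inv_inv, Ne, Ne, inv_mul_eq_one]

theorem adj_mul (g s : G) (hs : s ∈ L) : (cayley S).Adj g (g * s) := by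
  rw [adj_iff]; simpa using hs

def ht (g : G) : ℤ := (Multiplicative.toAdd g).1

theorem ht_adj {g h : G} (a : (cayley S).Adj g h) : |ht h - ht g| ≤ 1 := by
  rw [adj_iff] at a
  have : ∀ s ∈ L, |ht s| ≤ 1 := by decide
  have h2 := this _ a
  have : ht (g⁻¹ * h) = ht h - ht g := by simp [ht]; ring
  rwa [this] at h2

theorem ht_walk {g h : G} (p : (cayley S).Walk g h) : |ht h - ht g| ≤ p.length := by
  induction p with
  | nil => simp
  | cons a p ih =>
    have := ht_adj a
    simp only [SimpleGraph.Walk.length_cons]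
    push_cast
    rw [abs_le] at *
    omega

def B : ℕ → List G
  | 0 => [1]
  | k + 1 => B k ++ (B k).flatMap fun g => L.map (g * ·)

theorem walk_B (k : ℕ) : ∀ g ∈ B k, ∃ p : (cayley S).Walk 1 g, p.length ≤ k := by
  induction k with
  | zero =>
    intro g hg
    simp only [B, List.mem_singleton] at hg
    subst hg
    exact ⟨.nil, le_rfl⟩
  | succ k ih =>
    intro g hg
    simp only [B, List.mem_append, List.mem_flatMap, List.mem_map] at hg
    rcases hg with hg | ⟨a, ha, s, hs, rfl⟩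
    · obtain ⟨p, hp⟩ := ih g hg
      exact ⟨p, by omega⟩
    · obtain ⟨p, hp⟩ := ih a ha
      exact ⟨p.concat (adj_mul a s hs), by simpa using hp⟩

theorem len_le (g : G) (h : |ht g| ≤ 4) : len S g ≤ 4 := by
  have key : ∀ n ∈ [(-4 : ℤ), -3, -2, -1, 0, 1, 2, 3, 4], ∀ f : ZMod 4, e n f ∈ B 4 := by
    decide +kernel
  have : g ∈ B 4 := key (ht g) (by
    rw [abs_le] at h
    simp only [List.mem_cons]
    omega) (Multiplicative.toAdd g).2
  obtain ⟨p, hp⟩ := walk_B 4 g this
  exact (SimpleGraph.dist_le p).trans hp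

theorem not_escapes (y : G) (h0 : ht y = 0) (h1 : 1 ≤ len S y) : ¬ Escapes S y := by
  rintro ⟨π, rfl, h⟩
  have a0 := h 0
  have a1 := h 1
  have a2 := h 2
  have a3 := h 3
  have b0 := ht_adj a0.1
  have b1 := ht_adj a1.1
  have b2 := ht_adj a2.1
  have b3 := ht_adj a3.1
  have := len_le (π 4) (by
    simp only [zero_add, Nat.reduceAdd] at b0 b1 b2 b3
    rw [abs_le] at *
    omega)
  simp only [zero_add, Nat.reduceAdd] at a0 a1 a2 a3
  omega

theorem walk_line (n : ℕ) : ∃ p : (cayley S).Walk 1 (e n 0), p.length = n := by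
  induction n with
  | zero => exact ⟨.nil, rfl⟩
  | succ n ih =>
    obtain ⟨p, hp⟩ := ih
    have : e ((n + 1 : ℕ) : ℤ) 0 = e n 0 * e 1 0 := by simp [e, ← ofAdd_add]
    rw [this]
    exact ⟨p.concat (adj_mul _ _ (by decide)), by simp [hp]⟩

theorem len_line (n : ℕ) : len S (e n 0) = n := by
  obtain ⟨p, hp⟩ := walk_line n
  refine le_antisymm ((SimpleGraph.dist_le p).trans hp.le) ?_
  obtain ⟨q, hq⟩ := p.reachable.exists_walk_length_eq_dist
  have := ht_walk q
  rw [hq] at this
  simpa [ht, e, len] using this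

theorem len_x : len S (e 0 2) = 2 := by
  obtain ⟨p, hp⟩ := walk_B 2 (e 0 2) (by decide +kernel)
  have h1 : len S (e 0 2) ≤ 2 := (SimpleGraph.dist_le p).trans hp
  have h2 : len S (e 0 2) ≠ 0 := by
    rw [len, Ne, p.reachable.dist_eq_zero_iff]; decide
  have h3 : len S (e 0 2) ≠ 1 := by
    rw [len, Ne, SimpleGraph.dist_eq_one_iff_adj, adj_iff]; decide
  omega

theorem two_walk {V : Type} {Γ : SimpleGraph V} {a b : V} (p : Γ.Walk a b) (hp : p.length = 2)
    (y : V) (hy : y ∈ p.support) : y = a ∨ y = b ∨ (Γ.Adj a y ∧ Γ.Adj y b) := by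
  cases p with
  | nil => simp at hp
  | cons h q =>
    cases q with
    | nil => simp at hp
    | cons h' r =>
      cases r with
      | cons _ _ => simp at hp
      | nil =>
        simp only [SimpleGraph.Walk.support_cons, SimpleGraph.Walk.support_nil, List.mem_cons,
          List.not_mem_nil, or_false] at hy
        rcases hy with rfl | rfl | rfl
        · exact Or.inl rfl
        · exact Or.inr (Or.inr ⟨h, h'⟩)
        · exact Or.inr (Or.inl rfl)

/-- The bound `sd (x) ≤ ⌈|x| / 2⌉` fails in `ℤ × ℤ/4` with generators `(1,0), (1,1), (0,1)`. -/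
theorem result : ¬ ∀ (G : Type) [Group G] [Infinite G] (S : Finset G),
    Subgroup.closure (S : Set G) = ⊤ → ∀ x : G, sd S x ≤ (len S x + 1) / 2 := by
  intro h
  have hgen : Subgroup.closure (S : Set G) = ⊤ := by
    rw [eq_top_iff]
    rintro g -
    have h1 : e 1 0 ∈ Subgroup.closure (S : Set G) := Subgroup.subset_closure (by simp [S])
    have h2 : e 0 1 ∈ Subgroup.closure (S : Set G) := Subgroup.subset_closure (by simp [S])
    have : g = e 1 0 ^ ht g * e 0 1 ^ (Multiplicative.toAdd g).2.val := by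
      apply Multiplicative.toAdd.injective
      ext <;> simp [e, ht]
    rw [this]
    exact Subgroup.mul_mem _ (Subgroup.zpow_mem _ h1 _) (Subgroup.pow_mem _ h2 _)
  have hx := h G S hgen (e 0 2)
  rw [len_x] at hx
  have hne : {k | ∃ y, len S y + k = len S (e 0 2) ∧ Escapes S y ∧
      OnGeodesic S y (e 0 2)}.Nonempty := by
    obtain ⟨p, hp⟩ := walk_B 2 (e 0 2) (by decide +kernel)
    obtain ⟨q, hq⟩ := p.reachable.exists_walk_length_eq_dist
    refine ⟨2, 1, by rw [len_x]; simp [len], ⟨fun i => e i 0, rfl, fun i => ⟨?_, ?_⟩⟩,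
      q, hq, q.start_mem_support⟩
    · have : e ((i + 1 : ℕ) : ℤ) 0 = e i 0 * e 1 0 := by simp [e, ← ofAdd_add]
      show (cayley S).Adj (e i 0) (e ((i + 1 : ℕ) : ℤ) 0)
      rw [this]
      exact adj_mul _ _ (by decide)
    · show len S (e i 0) < len S (e ((i + 1 : ℕ) : ℤ) 0)
      rw [len_line, len_line]; omega
  obtain ⟨y, h1, h2, p, hp, hy⟩ := Nat.sInf_mem hne
  change len S y + sd S (e 0 2) = _ at h1
  rw [len_x] at h1 hp
  refine not_escapes y ?_ (by omega) h2
  have mid : ∀ w ∈ L, w⁻¹ * e 0 2 ∈ L → ht w = 0 := by decide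
  obtain rfl | rfl | ⟨a, b⟩ := two_walk p hp y hy
  · rfl
  · rfl
  · exact mid _ (by simpa using (adj_iff _ _).1 a) ((adj_iff _ _).1 b)

end Pool.Agent.Results.MP_ea4c65_al.Counterexample
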